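import Pool.Agent.WD.Comp

/-!
# The number of pairs of a given level
-/

set_option autoImplicit false
set_option linter.unusedSectionVars false

namespace Pool.Agent.WD

open Finset

variable {V : Type} [Fintype V] [DecidableEq V]

/-- the largest level of a pair -/
noncomputable def top (Ω : Set (V → V)) : ℕ :=
  (univ : Finset (V × V)).sup fun p => lev Ω p.1 p.2

/-- the number of ordered pairs of level at most `t` -/
noncomputable def cnt (Ω : Set (V → V)) (t : ℕ) : ℕ :=
  ((univ : Finset (V × V)).filter fun p => lev Ω p.1 p.2 ≤ t).card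

/-- the set of ordered pairs of level `t` -/
noncomputable def prs (Ω : Set (V → V)) (t : ℕ) : Finset (V × V) :=
  (univ : Finset (V × V)).filter fun p => lev Ω p.1 p.2 = t

/-- the level `s` consists of one unordered pair -/
def Single (Ω : Set (V → V)) (s : ℕ) : Prop :=
  ∃ a b, ∀ x y, lev Ω x y = s → (x = a ∧ y = b) ∨ (x = b ∧ y = a)

omit [DecidableEq V] in
theorem lev_le_top (Ω : Set (V → V)) (x y : V) : lev Ω x y ≤ top Ω :=
  le_sup (f := fun p : V × V => lev Ω p.1 p.2) (mem_univ (x, y))

theorem cnt_succ (Ω : Set (V → V)) (t : ℕ) :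
    cnt Ω (t + 1) = cnt Ω t + (prs Ω (t + 1)).card := by
  unfold cnt prs
  rw [← card_union_of_disjoint]
  · congr 1
    ext p
    simp only [mem_filter, mem_univ, true_and, mem_union]
    omega
  · rw [disjoint_left]
    intro p
    simp only [mem_filter, mem_univ, true_and]
    omega

theorem cnt_zero {Ω : Set (V → V)} (hs : Sync Ω) : cnt Ω 0 = Fintype.card V := by
  unfold cnt
  have : ((univ : Finset (V × V)).filter fun p => lev Ω p.1 p.2 ≤ 0) = univ.image fun x => (x, x) := by
    ext ⟨x, y⟩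
    simp only [mem_filter, mem_univ, true_and, mem_image, nonpos_iff_eq_zero, Prod.mk.injEq]
    constructor
    · intro h
      exact ⟨x, rfl, lev_eq_zero hs h⟩
    · rintro ⟨z, rfl, rfl⟩
      exact lev_self Ω z
  rw [this, card_image_of_injective _ fun x y h => (Prod.mk.inj h).1, card_univ]

theorem cnt_of_top {Ω : Set (V → V)} {t : ℕ} (h : top Ω ≤ t) :
    cnt Ω t = Fintype.card V * Fintype.card V := by
  unfold cnt
  rw [filter_true_of_mem, card_univ, Fintype.card_prod]
  exact fun p _ => (lev_le_top Ω p.1 p.2).trans h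

variable [Nonempty V]

omit [DecidableEq V] in
theorem exists_top (Ω : Set (V → V)) : ∃ x y, lev Ω x y = top Ω := by
  obtain ⟨p, _, hp⟩ := exists_mem_eq_sup (univ : Finset (V × V)) univ_nonempty
    fun p => lev Ω p.1 p.2
  exact ⟨p.1, p.2, hp.symm⟩

theorem exists_prs {Ω : Set (V → V)} (hs : Sync Ω) {t : ℕ} (ht : t ≤ top Ω) :
    ∃ x y, lev Ω x y = t := by
  obtain ⟨x, y, h⟩ := exists_top Ω
  obtain ⟨u, _, _, h3⟩ := lev_desc hs (x := x) (y := y) (s := t) (by rw [h]; exact ht)
  exact ⟨_, _, h3⟩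

theorem prs_two {Ω : Set (V → V)} (hs : Sync Ω) {t : ℕ} (h1 : 1 ≤ t) (ht : t ≤ top Ω) :
    2 ≤ (prs Ω t).card := by
  obtain ⟨x, y, h⟩ := exists_prs hs ht
  have hxy : x ≠ y := by
    rintro rfl
    rw [lev_self] at h
    omega
  have h2 : ({(x, y), (y, x)} : Finset (V × V)) ⊆ prs Ω t := by
    intro p hp
    rw [mem_insert, mem_singleton] at hp
    unfold prs
    rw [mem_filter]
    rcases hp with rfl | rfl
    · exact ⟨mem_univ _, h⟩
    · exact ⟨mem_univ _, by rw [lev_symm]; exact h⟩
  have h3 := card_le_card h2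
  rw [card_pair] at h3
  · exact h3
  · intro h4
    exact hxy (Prod.mk.inj h4).1

theorem prs_four {Ω : Set (V → V)} (hs : Sync Ω) {t : ℕ} (h1 : 1 ≤ t) (ht : t ≤ top Ω)
    (hn : ¬ Single Ω t) : 4 ≤ (prs Ω t).card := by
  obtain ⟨x, y, h⟩ := exists_prs hs ht
  have hxy : x ≠ y := by
    rintro rfl
    rw [lev_self] at h
    omega
  unfold Single at hn
  push Not at hn
  obtain ⟨a, b, hab, h5, h6⟩ := hn x y
  have hab' : a ≠ b := by
    rintro rfl
    rw [lev_self] at hab
    omega
  have h2 : ({(x, y), (y, x), (a, b), (b, a)} : Finset (V × V)) ⊆ prs Ω t := by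
    intro p hp
    simp only [mem_insert, mem_singleton] at hp
    unfold prs
    rw [mem_filter]
    rcases hp with rfl | rfl | rfl | rfl
    · exact ⟨mem_univ _, h⟩
    · exact ⟨mem_univ _, by rw [lev_symm]; exact h⟩
    · exact ⟨mem_univ _, hab⟩
    · exact ⟨mem_univ _, by rw [lev_symm]; exact hab⟩
  have h3 := card_le_card h2
  have h4 : ({(x, y), (y, x), (a, b), (b, a)} : Finset (V × V)).card = 4 := by
    rw [card_insert_of_notMem, card_insert_of_notMem, card_pair]
    · intro h7
      exact hab' (Prod.mk.inj h7).1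
    · simp only [mem_insert, mem_singleton, Prod.mk.injEq, not_or, not_and]
      exact ⟨fun e1 e2 => h6 e1.symm e2.symm, fun e1 e2 => h5 e2.symm e1.symm⟩
    · simp only [mem_insert, mem_singleton, Prod.mk.injEq, not_or, not_and]
      exact ⟨fun e1 _ => hxy e1, fun e1 e2 => h5 e1.symm e2.symm, fun e1 e2 => h6 e2.symm e1.symm⟩
  omega

theorem cnt_lower {Ω : Set (V → V)} (hs : Sync Ω) {t : ℕ} (ht : t ≤ top Ω) :
    Fintype.card V + 2 * t ≤ cnt Ω t := by
  induction t with
  | zero => rw [cnt_zero hs]; omega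
  | succ t ih =>
    rw [cnt_succ]
    have := prs_two hs (t := t + 1) (by omega) ht
    have := ih (by omega)
    omega

theorem cnt_upper {Ω : Set (V → V)} (hs : Sync Ω) {k t : ℕ} (ht : t + k = top Ω) :
    cnt Ω t + 2 * k ≤ Fintype.card V * Fintype.card V := by
  induction k generalizing t with
  | zero => rw [cnt_of_top (by omega)]; omega
  | succ k ih =>
    have h1 := ih (t := t + 1) (by omega)
    rw [cnt_succ] at h1
    have := prs_two hs (t := t + 1) (by omega) (by omega)
    omega

theorem cnt_four {Ω : Set (V → V)} (hs : Sync Ω) {s k : ℕ} (hk : s + k ≤ top Ω)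
    (h : ∀ j, s < j → j ≤ s + k → ¬ Single Ω j) : cnt Ω s + 4 * k ≤ cnt Ω (s + k) := by
  induction k with
  | zero => exact le_rfl
  | succ k ih =>
    have h1 := ih (by omega) fun j h2 h3 => h j h2 (by omega)
    have h2 := prs_four hs (t := s + k + 1) (by omega) (by omega) (h _ (by omega) (by omega))
    rw [← add_assoc, cnt_succ]
    omega

theorem two_top {Ω : Set (V → V)} (hs : Sync Ω) :
    2 * top Ω + Fintype.card V ≤ Fintype.card V * Fintype.card V := by
  have h1 := cnt_upper hs (k := top Ω) (t := 0) (by omega)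
  rw [cnt_zero hs] at h1
  omega

/-- below every level there is, not far, a level with one pair (or level `0`) -/
theorem anchor {Ω : Set (V → V)} (hs : Sync Ω) {t : ℕ} (ht : t ≤ top Ω) :
    ∃ s k, s + k = t ∧ 2 * k + 2 * top Ω + Fintype.card V ≤ Fintype.card V * Fintype.card V ∧
      (s = 0 ∨ Single Ω s) := by
  classical
  obtain ⟨s, hs1, hs2, hs3⟩ : ∃ s ≤ t, (s = 0 ∨ Single Ω s) ∧
      ∀ j, s < j → j ≤ t → ¬ Single Ω j := by
    have h0 : ((range (t + 1)).filter fun s => s = 0 ∨ Single Ω s).Nonempty :=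
      ⟨0, mem_filter.2 ⟨mem_range.2 (by omega), Or.inl rfl⟩⟩
    have h1 := mem_filter.1 (max'_mem _ h0)
    rw [mem_range] at h1
    refine ⟨max' _ h0, by omega, h1.2, fun j h2 h3 h4 => ?_⟩
    have h5 : j ∈ (range (t + 1)).filter fun s => s = 0 ∨ Single Ω s :=
      mem_filter.2 ⟨mem_range.2 (by omega), Or.inr h4⟩
    have := le_max' _ j h5
    omega
  refine ⟨s, t - s, by omega, ?_, hs2⟩
  have h1 := cnt_four hs (s := s) (k := t - s) (by omega) fun j h2 h3 => hs3 j h2 (by omega)
  have h2 := cnt_lower hs (t := s) (by omega)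
  have h3 := cnt_upper hs (t := s + (t - s)) (k := top Ω - t) (by omega)
  omega

end Pool.Agent.WD
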