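import Mathlib

/-!
# Automata whose letters are permutations or near permutations, and pair levels
-/

set_option autoImplicit false

namespace Pool.Agent.WD

variable {V : Type}

/-- the state reached from `x` by the word `w` (the first letter acts first) -/
def act (w : List (V → V)) (x : V) : V := w.foldl (fun y f => f y) x

@[simp] theorem act_nil (x : V) : act [] x = x := rfl

theorem act_cons (f : V → V) (w : List (V → V)) (x : V) : act (f :: w) x = act w (f x) := rfl

theorem act_append (u v : List (V → V)) (x : V) : act (u ++ v) x = act v (act u x) := by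
  unfold act
  rw [List.foldl_append]

/-- all letters of `w` belong to `Ω` -/
def Over (Ω : Set (V → V)) (w : List (V → V)) : Prop := ∀ f ∈ w, f ∈ Ω

theorem over_nil (Ω : Set (V → V)) : Over Ω [] := fun _ h => absurd h List.not_mem_nil

theorem over_cons {Ω : Set (V → V)} {f : V → V} {w : List (V → V)} :
    Over Ω (f :: w) ↔ f ∈ Ω ∧ Over Ω w := by
  unfold Over
  simp

theorem over_append {Ω : Set (V → V)} {u w : List (V → V)} :
    Over Ω (u ++ w) ↔ Over Ω u ∧ Over Ω w := by
  unfold Over
  simp only [List.mem_append]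
  exact ⟨fun h => ⟨fun f hf => h f (Or.inl hf), fun f hf => h f (Or.inr hf)⟩,
    fun h f hf => hf.elim (h.1 f) (h.2 f)⟩

/-- some word over `Ω` sends all states to one state -/
def Sync (Ω : Set (V → V)) : Prop := ∃ w, Over Ω w ∧ ∃ q, ∀ x, act w x = q

/-- every letter is obtained from a permutation, which is a product of at most `L` letters, by
sending some of the states to one common state -/
def Near (Ω : Set (V → V)) (L : ℕ) : Prop :=
  ∀ f ∈ Ω, ∃ g, Over Ω g ∧ g.length ≤ L ∧ Function.Bijective (act g) ∧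
    ∃ c, ∀ x, f x = act g x ∨ f x = c

/-- A strongly connected synchronizing automaton with near permutations as letters. -/
structure Aut (V : Type) (L : ℕ) where
  Ω : Set (V → V)
  near : Near Ω L
  sync : Sync Ω
  conn : ∀ x y : V, ∃ u, Over Ω u ∧ act u x = y

/-- the level of a pair: the least length of a word sending both states to one state -/
noncomputable def lev (Ω : Set (V → V)) (x y : V) : ℕ :=
  sInf {k | ∃ u, Over Ω u ∧ u.length = k ∧ act u x = act u y}

theorem lev_le {Ω : Set (V → V)} {x y : V} {u : List (V → V)} (hu : Over Ω u)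
    (h : act u x = act u y) : lev Ω x y ≤ u.length :=
  Nat.sInf_le ⟨u, hu, rfl, h⟩

theorem exists_merge {Ω : Set (V → V)} (hs : Sync Ω) (x y : V) :
    ∃ u, Over Ω u ∧ u.length = lev Ω x y ∧ act u x = act u y := by
  obtain ⟨w, hw, q, hq⟩ := hs
  have hne : {k | ∃ u, Over Ω u ∧ u.length = k ∧ act u x = act u y}.Nonempty :=
    ⟨w.length, w, hw, rfl, by rw [hq, hq]⟩
  obtain ⟨u, h1, h2, h3⟩ := Nat.sInf_mem hne
  exact ⟨u, h1, h2, h3⟩

@[simp] theorem lev_self (Ω : Set (V → V)) (x : V) : lev Ω x x = 0 := by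
  have := lev_le (u := []) (over_nil Ω) (rfl : act [] x = act [] x)
  simpa using this

theorem lev_eq_zero {Ω : Set (V → V)} (hs : Sync Ω) {x y : V} (h : lev Ω x y = 0) : x = y := by
  obtain ⟨u, _, h2, h3⟩ := exists_merge hs x y
  rw [h, List.length_eq_zero_iff] at h2
  subst h2
  exact h3

theorem lev_symm (Ω : Set (V → V)) (x y : V) : lev Ω x y = lev Ω y x := by
  unfold lev
  congr 1
  ext k
  exact ⟨fun ⟨u, h1, h2, h3⟩ => ⟨u, h1, h2, h3.symm⟩, fun ⟨u, h1, h2, h3⟩ => ⟨u, h1, h2, h3.symm⟩⟩

theorem lev_word {Ω : Set (V → V)} (hs : Sync Ω) {u : List (V → V)} (hu : Over Ω u) (x y : V) :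
    lev Ω x y ≤ u.length + lev Ω (act u x) (act u y) := by
  obtain ⟨v, h1, h2, h3⟩ := exists_merge hs (act u x) (act u y)
  rw [← h2, ← List.length_append]
  exact lev_le (over_append.2 ⟨hu, h1⟩) (by rw [act_append, act_append, h3])

theorem lev_step {Ω : Set (V → V)} (hs : Sync Ω) {f : V → V} (hf : f ∈ Ω) (x y : V) :
    lev Ω x y ≤ 1 + lev Ω (f x) (f y) :=
  lev_word hs (u := [f]) (over_cons.2 ⟨hf, over_nil Ω⟩) x y

/-- along a shortest word the level decreases by one at every letter -/
theorem lev_desc {Ω : Set (V → V)} (hs : Sync Ω) {x y : V} {s : ℕ} (h : s ≤ lev Ω x y) :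
    ∃ u, Over Ω u ∧ u.length + s = lev Ω x y ∧ lev Ω (act u x) (act u y) = s := by
  obtain ⟨w, h1, h2, h3⟩ := exists_merge hs x y
  have hw : w = w.take (lev Ω x y - s) ++ w.drop (lev Ω x y - s) := (List.take_append_drop _ _).symm
  have ho := h1
  rw [hw, over_append] at ho
  have hl : (w.take (lev Ω x y - s)).length = lev Ω x y - s := by
    rw [List.length_take, h2]; omega
  have hl2 : (w.drop (lev Ω x y - s)).length = s := by
    rw [List.length_drop, h2]; omega
  refine ⟨w.take (lev Ω x y - s), ho.1, by omega, ?_⟩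
  have h4 : lev Ω (act (w.take (lev Ω x y - s)) x) (act (w.take (lev Ω x y - s)) y) ≤ s := by
    refine (lev_le ho.2 ?_).trans_eq hl2
    rw [← act_append, ← act_append, ← hw, h3]
  have h5 := lev_word hs ho.1 x y
  omega

end Pool.Agent.WD
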