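import Pool.Agent.WD.Aut

/-!
# Short paths and the companion permutation of a word
-/

set_option autoImplicit false

namespace Pool.Agent.WD

variable {V : Type}

/-- A function to `ℕ` that takes, with every nonzero value, the previous one is smaller than the
number of points. -/
theorem card_of_levels {α : Type} [Fintype α] (d : α → ℕ)
    (h : ∀ x, d x ≠ 0 → ∃ y, d y + 1 = d x) (x : α) : d x < Fintype.card α := by
  classical
  have key : ∀ k x, d x = k → ∀ j ≤ k, ∃ y, d y = j := by
    intro k
    induction k with
    | zero => intro x hx j hj; exact ⟨x, by omega⟩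
    | succ k ih =>
      intro x hx j hj
      rcases Nat.lt_or_ge k j with h1 | h1
      · exact ⟨x, by omega⟩
      · obtain ⟨y, hy⟩ := h x (by omega)
        exact ih y (by omega) j h1
  have h1 : Finset.range (d x + 1) ⊆ Finset.univ.image d := by
    intro j hj
    rw [Finset.mem_range] at hj
    obtain ⟨y, hy⟩ := key (d x) x rfl j (by omega)
    exact Finset.mem_image.2 ⟨y, Finset.mem_univ y, hy⟩
  have h2 := Finset.card_le_card h1
  rw [Finset.card_range] at h2
  have h3 : (Finset.univ.image d).card ≤ Fintype.card α := Finset.card_image_le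
  omega

/-- reachable states are reached by short words -/
theorem reach [Fintype V] {Ω : Set (V → V)} {x y : V} (h : ∃ u, Over Ω u ∧ act u x = y) :
    ∃ u, Over Ω u ∧ u.length + 1 ≤ Fintype.card V ∧ act u x = y := by
  classical
  let d : V → ℕ := fun z => sInf {k | ∃ u, Over Ω u ∧ u.length = k ∧ act u z = y}
  have hmem : ∀ z, (∃ u, Over Ω u ∧ act u z = y) → ∃ u, Over Ω u ∧ u.length = d z ∧ act u z = y := by
    rintro z ⟨u, h1, h2⟩
    have hne : {k | ∃ u, Over Ω u ∧ u.length = k ∧ act u z = y}.Nonempty := ⟨u.length, u, h1, rfl, h2⟩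
    obtain ⟨v, h3, h4, h5⟩ := Nat.sInf_mem hne
    exact ⟨v, h3, h4, h5⟩
  have hd : ∀ z, d z ≠ 0 → ∃ z', d z' + 1 = d z := by
    intro z hz
    have hne : {k | ∃ u, Over Ω u ∧ u.length = k ∧ act u z = y}.Nonempty := by
      by_contra hcon
      rw [Set.not_nonempty_iff_eq_empty] at hcon
      apply hz
      simp only [d, hcon, Nat.sInf_empty]
    obtain ⟨v, h3, h4, h5⟩ := Nat.sInf_mem hne
    have h4' : v.length = d z := h4
    cases v with
    | nil => exact absurd h4'.symm hz
    | cons f v =>
      rw [over_cons] at h3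
      rw [act_cons] at h5
      refine ⟨f z, ?_⟩
      have h6 : d (f z) ≤ v.length := Nat.sInf_le ⟨v, h3.2, rfl, h5⟩
      obtain ⟨u', h7, h8, h9⟩ := hmem (f z) ⟨v, h3.2, h5⟩
      have h10 : d z ≤ (f :: u').length := Nat.sInf_le ⟨f :: u', over_cons.2 ⟨h3.1, h7⟩, rfl, h9⟩
      simp only [List.length_cons] at h4' h10
      omega
  obtain ⟨u, h1, h2, h3⟩ := hmem x h
  refine ⟨u, h1, ?_, h3⟩
  have := card_of_levels d hd x
  omega

/-- The companion of a word: a word `v` acting bijectively such that moving `z` by `v` instead of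
`u` costs nothing. -/
theorem comp_word {L : ℕ} (hL : 1 ≤ L) {Ω : Set (V → V)} (hn : Near Ω L) (hs : Sync Ω)
    {u : List (V → V)} (hu : Over Ω u) :
    ∃ v, Over Ω v ∧ v.length ≤ L * u.length ∧ Function.Bijective (act v) ∧
      ∀ x z, lev Ω x z ≤ L * u.length + lev Ω (act u x) (act v z) := by
  induction u with
  | nil => exact ⟨[], over_nil Ω, by simp, Function.bijective_id, fun x z => by simp⟩
  | cons f u ih =>
    rw [over_cons] at hu
    obtain ⟨v, h1, h2, h3, h4⟩ := ih hu.2
    obtain ⟨g, g1, g2, g3, c, hc⟩ := hn f hu.1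
    refine ⟨g ++ v, over_append.2 ⟨g1, h1⟩, ?_, ?_, ?_⟩
    · rw [List.length_append, List.length_cons, Nat.mul_succ]; omega
    · have : act (g ++ v) = act v ∘ act g := by
        funext x
        rw [act_append]; rfl
      rw [this]
      exact h3.comp g3
    · intro x z
      rw [act_append, act_cons, List.length_cons, Nat.mul_succ]
      have h5 := h4 (f x) (act g z)
      have h6 : lev Ω x z ≤ L + lev Ω (f x) (act g z) := by
        rcases hc z with hz | hz
        · rw [← hz]
          exact (lev_step hs hu.1 x z).trans (by omega)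
        · rcases hc x with hx | hx
          · rw [hx]
            exact (lev_word hs g1 x z).trans (by omega)
          · have : lev Ω x z ≤ 1 :=
              lev_le (u := [f]) (over_cons.2 ⟨hu.1, over_nil Ω⟩) (by
                change f x = f z
                rw [hx, hz])
            omega
      omega

end Pool.Agent.WD
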