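import Pool.Agent.WD.Sum

/-!
# Every proper set has a short exit
-/

set_option autoImplicit false
set_option linter.unusedSectionVars false

namespace Pool.Agent.WD

open Finset

variable {V : Type} [Fintype V]

/-- all letters of the word belong to `Ω` and act bijectively -/
def OverB (Ω : Set (V → V)) (u : List (V → V)) : Prop := ∀ f ∈ u, f ∈ Ω ∧ Function.Bijective f

theorem OverB.over {Ω : Set (V → V)} {u : List (V → V)} (h : OverB Ω u) : Over Ω u :=
  fun f hf => (h f hf).1

theorem OverB.bij {Ω : Set (V → V)} {u : List (V → V)} (h : OverB Ω u) :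
    Function.Bijective (act u) := by
  induction u with
  | nil => exact Function.bijective_id
  | cons f u ih =>
    have h1 := ih fun g hg => h g (List.mem_cons_of_mem _ hg)
    exact h1.comp (h f List.mem_cons_self).2

theorem OverB.append {Ω : Set (V → V)} {u v : List (V → V)} (hu : OverB Ω u) (hv : OverB Ω v) :
    OverB Ω (u ++ v) := fun f hf => (List.mem_append.1 hf).elim (hu f) (hv f)

theorem overB_of_bij {Ω : Set (V → V)} {u : List (V → V)} (h : Over Ω u)
    (hb : Function.Bijective (act u)) : OverB Ω u := by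
  induction u with
  | nil => exact fun f hf => absurd hf List.not_mem_nil
  | cons f u ih =>
    rw [over_cons] at h
    have h1 : Function.Injective f := by
      intro x y hxy
      apply hb.1
      rw [act_cons, act_cons, hxy]
    have h2 : Function.Bijective f := Finite.injective_iff_bijective.1 h1
    have h3 : Function.Bijective (act u) := by
      have : Function.Surjective (act u) := by
        intro y
        obtain ⟨x, hx⟩ := hb.2 y
        exact ⟨f x, hx⟩
      exact Finite.surjective_iff_bijective.1 this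
    intro g hg
    rcases List.mem_cons.1 hg with rfl | hg
    · exact ⟨h.1, h2⟩
    · exact ih h.2 h3 g hg

/-- the functions recognised by bijective words of length at most `j` -/
def spc (Ω : Set (V → V)) (φ : V → ℚ) (j : ℕ) : Submodule ℚ (V → ℚ) :=
  Submodule.span ℚ {ψ | ∃ u, OverB Ω u ∧ u.length ≤ j ∧ ψ = φ ∘ act u}

theorem spc_mono (Ω : Set (V → V)) (φ : V → ℚ) (j : ℕ) : spc Ω φ j ≤ spc Ω φ (j + 1) := by
  apply Submodule.span_mono
  rintro ψ ⟨u, h1, h2, h3⟩
  exact ⟨u, h1, by omega, h3⟩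

theorem spc_comp {Ω : Set (V → V)} {φ : V → ℚ} {j : ℕ} {f : V → V} (hf : f ∈ Ω)
    (hb : Function.Bijective f) {ψ : V → ℚ} (hψ : ψ ∈ spc Ω φ j) : ψ ∘ f ∈ spc Ω φ (j + 1) := by
  let F : (V → ℚ) →ₗ[ℚ] (V → ℚ) := LinearMap.funLeft ℚ ℚ f
  have h1 : (spc Ω φ j).map F ≤ spc Ω φ (j + 1) := by
    unfold spc
    rw [Submodule.map_span, Submodule.span_le]
    rintro _ ⟨_, ⟨u, h1, h2, rfl⟩, rfl⟩
    apply Submodule.subset_span
    refine ⟨f :: u, ?_, by simpa using h2, rfl⟩
    intro g hg
    rcases List.mem_cons.1 hg with rfl | hg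
    · exact ⟨hf, hb⟩
    · exact h1 g hg
  exact h1 (Submodule.mem_map_of_mem hψ)

theorem spc_stable {Ω : Set (V → V)} {φ : V → ℚ} {j : ℕ} (h : spc Ω φ j = spc Ω φ (j + 1)) :
    spc Ω φ (j + 1) = spc Ω φ (j + 2) := by
  apply le_antisymm (spc_mono Ω φ (j + 1))
  unfold spc
  rw [Submodule.span_le]
  rintro _ ⟨u, h1, h2, rfl⟩
  cases u with
  | nil => exact Submodule.subset_span ⟨[], h1, by simp, rfl⟩
  | cons f u =>
    have h3 : φ ∘ act u ∈ spc Ω φ (j + 1) := Submodule.subset_span
      ⟨u, fun g hg => h1 g (List.mem_cons_of_mem _ hg), by simpa using h2, rfl⟩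
    rw [← h] at h3
    have h4 := h1 f List.mem_cons_self
    exact spc_comp h4.1 h4.2 h3

theorem spc_rank {Ω : Set (V → V)} {φ : V → ℚ} (j : ℕ) (h : spc Ω φ j ≠ spc Ω φ (j + 1)) :
    j + 1 ≤ Module.finrank ℚ (spc Ω φ (j + 1)) := by
  induction j with
  | zero =>
    have := Submodule.finrank_lt_finrank_of_lt (lt_of_le_of_ne (spc_mono Ω φ 0) h)
    omega
  | succ j ih =>
    have h1 := ih fun h2 => h (spc_stable h2)
    have := Submodule.finrank_lt_finrank_of_lt (lt_of_le_of_ne (spc_mono Ω φ (j + 1)) h)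
    omega

theorem spc_card (Ω : Set (V → V)) (φ : V → ℚ) (k : ℕ) :
    spc Ω φ (Fintype.card V + k) = spc Ω φ (Fintype.card V) := by
  have h0 : spc Ω φ (Fintype.card V) = spc Ω φ (Fintype.card V + 1) := by
    by_contra h
    have h1 := spc_rank _ h
    have h2 := Submodule.finrank_le (spc Ω φ (Fintype.card V + 1))
    rw [Module.finrank_fintype_fun_eq_card] at h2
    omega
  have h1 : ∀ k, spc Ω φ (Fintype.card V + k) = spc Ω φ (Fintype.card V + k + 1) := by
    intro k
    induction k with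
    | zero => exact h0
    | succ k ih => exact spc_stable ih
  induction k with
  | zero => rfl
  | succ k ih => rw [← add_assoc, ← h1, ih]

/-- states separated by a bijective word are separated by a short one -/
theorem short_sep {Ω : Set (V → V)} (S : Finset V) {a b : V}
    (h : ∀ u, OverB Ω u → u.length ≤ Fintype.card V → (act u a ∈ S ↔ act u b ∈ S))
    (u : List (V → V)) (hu : OverB Ω u) : act u a ∈ S ↔ act u b ∈ S := by
  classical
  let φ : V → ℚ := fun x => if x ∈ S then 1 else 0
  have h1 : ∀ x y : V, φ x = φ y ↔ (x ∈ S ↔ y ∈ S) := by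
    intro x y
    simp only [φ]
    by_cases hx : x ∈ S <;> by_cases hy : y ∈ S <;> simp [hx, hy]
  have h2 : ∀ ψ ∈ spc Ω φ (Fintype.card V), ψ a = ψ b := by
    intro ψ hψ
    have h3 : spc Ω φ (Fintype.card V) ≤
        LinearMap.ker ((LinearMap.proj a : (V → ℚ) →ₗ[ℚ] ℚ) - LinearMap.proj b) := by
      unfold spc
      rw [Submodule.span_le]
      rintro _ ⟨v, hv, hl, rfl⟩
      rw [SetLike.mem_coe, LinearMap.mem_ker]
      simp only [LinearMap.sub_apply, LinearMap.proj_apply, Function.comp_apply]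
      rw [sub_eq_zero, h1]
      exact h v hv hl
    have h4 := h3 hψ
    rw [LinearMap.mem_ker] at h4
    simpa [sub_eq_zero] using h4
  have h3 : φ ∘ act u ∈ spc Ω φ (Fintype.card V) := by
    rw [← spc_card Ω φ u.length]
    exact Submodule.subset_span ⟨u, hu, by omega, rfl⟩
  exact (h1 _ _).1 (h2 _ h3)

/-- the permutation of a bijective word can be undone by bijective words -/
theorem unact {Ω : Set (V → V)} {g : List (V → V)} (hg : OverB Ω g) :
    ∃ v, OverB Ω v ∧ ∀ x, act v (act g x) = x := by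
  classical
  let p : Equiv.Perm V := Equiv.ofBijective (act g) hg.bij
  have h1 : ∀ k : ℕ, ∃ v, OverB Ω v ∧ ∀ x, act v x = (p ^ k) x := by
    intro k
    induction k with
    | zero => exact ⟨[], fun f hf => absurd hf List.not_mem_nil, fun x => rfl⟩
    | succ k ih =>
      obtain ⟨v, h2, h3⟩ := ih
      refine ⟨g ++ v, hg.append h2, fun x => ?_⟩
      rw [act_append, h3, pow_succ, Equiv.Perm.mul_apply]
      rfl
  obtain ⟨v, h2, h3⟩ := h1 (orderOf p - 1)
  refine ⟨v, h2, fun x => ?_⟩
  rw [h3]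
  have h4 : act g x = p x := rfl
  rw [h4, ← Equiv.Perm.mul_apply, ← pow_succ, Nat.sub_add_cancel (orderOf_pos p), pow_orderOf_eq_one]
  rfl

/-- every proper nonempty set contains a state whose row is near the row of a state outside -/
theorem w3 {L : ℕ} (hL : 1 ≤ L) (A : Aut V L) (S : Finset V) (hS : S.Nonempty) (hS' : S ≠ univ) :
    ∃ x ∈ S, ∃ y, y ∉ S ∧ rowDist A.Ω x y ≤ 4 * bd V L + 2 * (Fintype.card V * L) +
      4 * (Fintype.card V * Fintype.card V) := by
  classical
  obtain ⟨f, hf, g, g1, c, hc, a, ha, x, hx, hne⟩ : ∃ f ∈ A.Ω, ∃ g, OverB A.Ω g ∧ ∃ c,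
      (∀ x, f x = act g x ∨ f x = c) ∧ ∃ a, act g a = c ∧ ∃ x, f x = c ∧
      ¬ ∀ u, OverB A.Ω u → (act u a ∈ S ↔ act u x ∈ S) := by
    by_contra hcon
    have hall : ∀ f ∈ A.Ω, ∃ g, OverB A.Ω g ∧ ∀ x, ∀ u, OverB A.Ω u →
        (act u (f x) ∈ S ↔ act u (act g x) ∈ S) := by
      intro f hf
      obtain ⟨g, g1, g2, g3, c, hc⟩ := A.near f hf
      have g4 := overB_of_bij g1 g3
      obtain ⟨a, ha⟩ := g3.2 c
      refine ⟨g, g4, fun x u hu => ?_⟩
      rcases hc x with h | h
      · rw [h]
      · have h1 : ∀ u, OverB A.Ω u → (act u a ∈ S ↔ act u x ∈ S) := by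
          by_contra h2
          exact hcon ⟨f, hf, g, g4, c, hc, a, ha, x, h, h2⟩
        rw [h, ← ha, ← act_append, ← act_append]
        exact h1 _ (g4.append hu)
    have hword : ∀ w, Over A.Ω w → ∀ x y, (∀ u, OverB A.Ω u → (act u (act w x) ∈ S ↔
        act u (act w y) ∈ S)) → ∀ u, OverB A.Ω u → (act u x ∈ S ↔ act u y ∈ S) := by
      intro w
      induction w with
      | nil => exact fun _ x y h => h
      | cons f w ih =>
        intro hw x y h
        rw [over_cons] at hw
        have h1 := ih hw.2 (f x) (f y) h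
        obtain ⟨g, g1, g2⟩ := hall f hw.1
        obtain ⟨v, v1, v2⟩ := unact g1
        intro u hu
        have h3 : ∀ z, act u z = act (v ++ u) (act g z) := by
          intro z
          rw [act_append, v2]
        rw [h3 x, h3 y, ← g2 x _ (v1.append hu), ← g2 y _ (v1.append hu)]
        exact h1 _ (v1.append hu)
    obtain ⟨w, w1, q, w2⟩ := A.sync
    obtain ⟨x, hx⟩ := hS
    obtain ⟨y, hy⟩ : ∃ y, y ∉ S := by
      by_contra h
      push Not at h
      exact hS' (eq_univ_iff_forall.2 h)
    have h1 := hword w w1 x y (fun u _ => by rw [w2 x, w2 y]) []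
      (fun f hf => absurd hf List.not_mem_nil)
    exact hy (h1.1 hx)
  have h1 : ∃ u, OverB A.Ω u ∧ u.length ≤ Fintype.card V ∧ ¬ (act u a ∈ S ↔ act u x ∈ S) := by
    by_contra h2
    push Not at h2
    exact hne (short_sep S fun u hu hl => h2 u hu hl)
  obtain ⟨u, u1, u2, u3⟩ := h1
  have hfa : f a = c := by
    rcases hc a with h | h
    · rw [h, ha]
    · exact h
  have hlev : lev A.Ω a x ≤ 1 := lev_le (u := [f]) (over_cons.2 ⟨hf, over_nil _⟩) (by
    change f a = f x
    rw [hfa, hx])
  let p : Equiv.Perm V := Equiv.ofBijective (act u) u1.bij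
  have hp : Good A.Ω p p u.length := by
    intro y z
    have := lev_word A.sync u1.over y z
    change (lev A.Ω y z : ℝ) ≤ u.length + lev A.Ω (act u y) (act u z)
    exact_mod_cast this
  have h2 : ∀ q, ∑ z, |(lev A.Ω (p q) (p z) : ℝ) - lev A.Ω q z| ≤
      bd V L + 2 * (Fintype.card V * Fintype.card V) := by
    intro q
    refine (sum_good hL A (Nat.cast_nonneg _) hp q).trans ?_
    have : (u.length : ℝ) ≤ Fintype.card V := by exact_mod_cast u2
    gcongr
  have h3 := abs_le.1 (rowDist_perm p h2 a x)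
  have h4 := rowDist_lev hL A a x
  have h5 : (Fintype.card V : ℝ) * (L * lev A.Ω a x) ≤ Fintype.card V * L := by
    have h6 : (lev A.Ω a x : ℝ) ≤ 1 := by exact_mod_cast hlev
    have h7 : (L : ℝ) * lev A.Ω a x ≤ L * 1 := by gcongr
    rw [mul_one] at h7
    gcongr
  have h6 : rowDist A.Ω (act u a) (act u x) ≤ 4 * bd V L + 2 * (Fintype.card V * L) +
      4 * (Fintype.card V * Fintype.card V) := by
    change rowDist A.Ω (p a) (p x) ≤ _
    linarith [h3.2]
  by_cases h7 : act u a ∈ S
  · refine ⟨_, h7, act u x, fun h8 => u3 ⟨fun _ => h8, fun _ => h7⟩, h6⟩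
  · have h8 : act u x ∈ S := by
      by_contra h9
      exact u3 ⟨fun h => absurd h h7, fun h => absurd h h9⟩
    exact ⟨_, h8, act u a, h7, by rw [rowDist_symm]; exact h6⟩

end Pool.Agent.WD
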