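import Pool.Agent.WD.Sum
import Pool.Agent.WD.Count

/-!
# Transitivity on states and on pairs of nearly the same level
-/

set_option autoImplicit false
set_option linter.unusedSectionVars false

namespace Pool.Agent.WD

open Finset

variable {V : Type} [Fintype V] [DecidableEq V]

theorem w4 {L : ℕ} (hL : 1 ≤ L) (A : Aut V L) (x y : V) :
    ∃ g : Equiv.Perm V, rowDist A.Ω (g x) y ≤ 6 * bd V L ∧
      (∀ p q, |rowDist A.Ω (g p) (g q) - rowDist A.Ω p q| ≤ 6 * bd V L) ∧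
      ∀ p, ∑ z, |(lev A.Ω (g p) (g z) : ℝ) - lev A.Ω p z| ≤ 3 * bd V L := by
  obtain ⟨u, h1, h2, h3⟩ := reach (A.conn x y)
  obtain ⟨g, h4, h5⟩ := exists_good hL A.near A.sync h1
  have h6 : (Fintype.card V : ℝ) * (L * u.length) ≤ bd V L := by
    have h7 : (u.length : ℝ) + 1 ≤ Fintype.card V := by exact_mod_cast h2
    unfold bd
    have h8 : (Fintype.card V : ℝ) * (L * u.length) = L * (Fintype.card V * u.length) := by ring
    rw [h8]
    gcongr
    linarith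
  have h0 : (0 : ℝ) ≤ L * u.length := by positivity
  have h9 : ∀ p, ∑ z, |(lev A.Ω (g p) (g z) : ℝ) - lev A.Ω p z| ≤ 3 * bd V L := fun p =>
    (sum_good hL A h0 h5 p).trans (by linarith)
  refine ⟨g, ?_, fun p q => (rowDist_perm g h9 p q).trans (by linarith), h9⟩
  have h10 := rowDist_good hL A h0 h4 h5 x
  rw [h3, rowDist_symm] at h10
  linarith

/-- two pairs of nearly the same level are sent to one pair by short words -/
theorem join_pairs {L : ℕ} (A : Aut V L) (x y x' y' : V) :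
    ∃ u u', Over A.Ω u ∧ Over A.Ω u' ∧ (u.length : ℝ) + u'.length ≤
      |(lev A.Ω x y : ℝ) - lev A.Ω x' y'| +
        ((Fintype.card V : ℝ) * ((Fintype.card V : ℝ) - 1) - 2 * top A.Ω) + Fintype.card V ∧
      ((act u x = act u' x' ∧ act u y = act u' y') ∨
        (act u x = act u' y' ∧ act u y = act u' x')) := by
  have : Nonempty V := ⟨x⟩
  obtain ⟨s, k, hk, ha, hs⟩ := anchor A.sync (t := min (lev A.Ω x y) (lev A.Ω x' y'))
    ((min_le_left _ _).trans (lev_le_top A.Ω x y))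
  obtain ⟨u, u1, u2, u3⟩ := lev_desc A.sync (x := x) (y := y) (s := s) (by omega)
  obtain ⟨v, v1, v2, v3⟩ := lev_desc A.sync (x := x') (y := y') (s := s) (by omega)
  have ha' : 2 * (k : ℝ) ≤ (Fintype.card V : ℝ) * ((Fintype.card V : ℝ) - 1) - 2 * top A.Ω := by
    have : 2 * (k : ℝ) + 2 * top A.Ω + Fintype.card V ≤ Fintype.card V * Fintype.card V := by
      exact_mod_cast ha
    linarith
  have hlen : (u.length : ℝ) + v.length ≤ |(lev A.Ω x y : ℝ) - lev A.Ω x' y'| + 2 * k := by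
    have e1 : (u.length : ℝ) + s = lev A.Ω x y := by exact_mod_cast u2
    have e2 : (v.length : ℝ) + s = lev A.Ω x' y' := by exact_mod_cast v2
    rcases le_total (lev A.Ω x y) (lev A.Ω x' y') with h | h
    · rw [min_eq_left h] at hk
      have e3 : (s : ℝ) + k = lev A.Ω x y := by exact_mod_cast hk
      have := neg_abs_le ((lev A.Ω x y : ℝ) - lev A.Ω x' y')
      linarith
    · rw [min_eq_right h] at hk
      have e3 : (s : ℝ) + k = lev A.Ω x' y' := by exact_mod_cast hk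
      have := le_abs_self ((lev A.Ω x y : ℝ) - lev A.Ω x' y')
      linarith
  rcases hs with rfl | ⟨a, b, hab⟩
  · have e1 := lev_eq_zero A.sync u3
    have e2 := lev_eq_zero A.sync v3
    obtain ⟨w, w1, w2, w3⟩ := reach (A.conn (act u x) (act v x'))
    refine ⟨u ++ w, v, over_append.2 ⟨u1, w1⟩, v1, ?_, Or.inl ⟨?_, ?_⟩⟩
    · rw [List.length_append]
      have : (w.length : ℝ) + 1 ≤ Fintype.card V := by exact_mod_cast w2
      push_cast
      linarith
    · rw [act_append, w3]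
    · rw [act_append, ← e1, w3, e2]
  · have hV : (0 : ℝ) ≤ Fintype.card V := Nat.cast_nonneg _
    refine ⟨u, v, u1, v1, by linarith, ?_⟩
    rcases hab _ _ u3 with ⟨h1, h2⟩ | ⟨h1, h2⟩ <;> rcases hab _ _ v3 with ⟨h3, h4⟩ | ⟨h3, h4⟩ <;>
      rw [h1, h2, h3, h4] <;> simp

theorem w5 {L : ℕ} (hL : 1 ≤ L) (A : Aut V L) (x y x' y' : V) :
    ∃ g : Equiv.Perm V, ∃ E : ℝ, E ≤ 2 * bd V L + 2 * (Fintype.card V * (L *
        (|(lev A.Ω x y : ℝ) - lev A.Ω x' y'| +
        ((Fintype.card V : ℝ) * ((Fintype.card V : ℝ) - 1) - 2 * top A.Ω) + Fintype.card V))) ∧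
      (∀ p, ∑ z, |(lev A.Ω (g p) (g z) : ℝ) - lev A.Ω p z| ≤ E) ∧
      (∀ p q, |rowDist A.Ω (g p) (g q) - rowDist A.Ω p q| ≤ 2 * E) ∧
      ((rowDist A.Ω (g x) x' ≤ 4 * E ∧ rowDist A.Ω (g y) y' ≤ 4 * E) ∨
        (rowDist A.Ω (g x) y' ≤ 4 * E ∧ rowDist A.Ω (g y) x' ≤ 4 * E)) := by
  obtain ⟨u, v, u1, v1, hlen, hmatch⟩ := join_pairs A x y x' y'
  obtain ⟨g, g1, g2⟩ := exists_good hL A.near A.sync u1
  obtain ⟨h, h1, h2⟩ := exists_good hL A.near A.sync v1
  have hu0 : (0 : ℝ) ≤ L * u.length := by positivity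
  have hv0 : (0 : ℝ) ≤ L * v.length := by positivity
  have hb0 : 0 ≤ bd V L := by
    have : Nonempty V := ⟨x⟩
    have : (1 : ℝ) ≤ Fintype.card V := by exact_mod_cast Fintype.card_pos
    unfold bd
    have : (0 : ℝ) ≤ (Fintype.card V : ℝ) - 1 := by linarith
    positivity
  set E1 : ℝ := bd V L + 2 * (Fintype.card V * (L * u.length)) with hE1
  set E2 : ℝ := bd V L + 2 * (Fintype.card V * (L * v.length)) with hE2
  have hE10 : 0 ≤ E1 := by positivity
  have hE20 : 0 ≤ E2 := by positivity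
  have i1 : ∀ p, ∑ z, |(lev A.Ω (g p) (g z) : ℝ) - lev A.Ω p z| ≤ E1 := sum_good hL A hu0 g2
  have i2 : ∀ p, ∑ z, |(lev A.Ω (h⁻¹ p) (h⁻¹ z) : ℝ) - lev A.Ω p z| ≤ E2 := sum_inv hL A hv0 h2
  have hsum : ∀ p, ∑ z, |(lev A.Ω ((h⁻¹ * g) p) ((h⁻¹ * g) z) : ℝ) - lev A.Ω p z| ≤ E1 + E2 := by
    intro p
    have j1 := i2 (g p)
    rw [← Equiv.sum_comp g] at j1
    have j2 := i1 p
    refine le_trans ?_ (add_le_add j2 j1)
    rw [← sum_add_distrib]
    refine sum_le_sum fun z _ => ?_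
    rw [Equiv.Perm.mul_apply, Equiv.Perm.mul_apply, add_comm]
    exact abs_sub_le _ _ _
  have hmatch2 : ∀ a b, act u a = act v b → rowDist A.Ω ((h⁻¹ * g) a) b ≤ 4 * (E1 + E2) := by
    intro a b hab
    have k1 := rowDist_good hL A hu0 g1 g2 a
    have k2 := rowDist_good hL A hv0 h1 h2 b
    rw [← hab] at k2
    rw [rowDist_symm] at k1
    have k3 := rowDist_tri A.Ω (g a) (act u a) (h b)
    have k4 := abs_le.1 (rowDist_perm h⁻¹ i2 (g a) (h b))
    have e1 : h⁻¹ (h b) = b := h.symm_apply_apply b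
    rw [e1] at k4
    rw [Equiv.Perm.mul_apply]
    linarith [k4.2]
  refine ⟨h⁻¹ * g, E1 + E2, ?_, hsum, fun p q => rowDist_perm _ hsum p q, ?_⟩
  · have e1 : E1 + E2 = 2 * bd V L + 2 * (Fintype.card V * (L * ((u.length : ℝ) + v.length))) := by
      rw [hE1, hE2]; ring
    rw [e1]
    gcongr
  · rcases hmatch with ⟨m1, m2⟩ | ⟨m1, m2⟩
    · exact Or.inl ⟨hmatch2 _ _ m1, hmatch2 _ _ m2⟩
    · exact Or.inr ⟨hmatch2 _ _ m1, hmatch2 _ _ m2⟩

end Pool.Agent.WD
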