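import Mathlib

/-!
# Worlds

A finite model of the pair levels of a nearly extremal synchronizing automaton whose letters are
permutations or simple idempotents (architects: helper41, part A; helper28, part B).
-/

set_option autoImplicit false

namespace Pool.Agent.WD

open Finset

/-- The distance of two rows of `lam`. -/
noncomputable def rho {V : Type} [Fintype V] (lam : V → V → ℝ) (x y : V) : ℝ :=
  (∑ z, |lam x z - lam y z|) / (Fintype.card V : ℝ)

/-- The mean error of the permutation `g` on the row of `p`. -/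
noncomputable def err {V : Type} [Fintype V] (lam : V → V → ℝ) (g : Equiv.Perm V) (p : V) : ℝ :=
  (∑ z, |lam (g p) (g z) - lam p z|) / (Fintype.card V : ℝ)

/-- A world with constant `K` and precision `ε`. -/
structure World (V : Type) [Fintype V] [DecidableEq V] (K ε : ℝ) where
  lam : V → V → ℝ
  nonneg : ∀ x y, 0 ≤ lam x y
  le_one : ∀ x y, lam x y ≤ 1
  self : ∀ x, lam x x = 0
  symm : ∀ x y, lam x y = lam y x
  w1 : ∀ x s, 0 ≤ s → s ≤ 1 →
    |((univ.filter fun z => lam x z ≤ s).card : ℝ) - s * Fintype.card V| ≤ ε * Fintype.card V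
  w2 : ∀ x y, rho lam x y ≤ K * lam x y + ε
  w3 : ∀ S : Finset V, S.Nonempty → S ≠ univ → ∃ x ∈ S, ∃ y, y ∉ S ∧ rho lam x y ≤ ε
  w4 : ∀ x y, ∃ g : Equiv.Perm V, rho lam (g x) y ≤ ε ∧
    (∀ p q, |rho lam (g p) (g q) - rho lam p q| ≤ ε) ∧ ∀ p, err lam g p ≤ ε
  w5 : ∀ x y x' y', ∃ g : Equiv.Perm V,
    (∀ p q, |rho lam (g p) (g q) - rho lam p q| ≤ K * |lam x y - lam x' y'| + ε) ∧
    (∀ p, err lam g p ≤ K * |lam x y - lam x' y'| + ε) ∧
    ((rho lam (g x) x' ≤ K * |lam x y - lam x' y'| + ε ∧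
        rho lam (g y) y' ≤ K * |lam x y - lam x' y'| + ε) ∨
      (rho lam (g x) y' ≤ K * |lam x y - lam x' y'| + ε ∧
        rho lam (g y) x' ≤ K * |lam x y - lam x' y'| + ε))
  w6 : ∃ x y z, 1 - ε ≤ lam x y ∧ 1 - ε ≤ lam y z ∧ 1 - ε ≤ lam x z

end Pool.Agent.WD
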