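import Pool.Agent.WD.W1
import Pool.Agent.WD.W3
import Pool.Agent.WD.W5
import Pool.Agent.WD.World

/-!
# The world of a nearly extremal automaton
-/

set_option autoImplicit false
set_option linter.unusedSectionVars false

namespace Pool.Agent.WD

open Finset

variable {V : Type} [Fintype V] [DecidableEq V]

theorem rho_lev (Ω : Set (V → V)) {N : ℝ} (hN : 0 < N) (x y : V) :
    rho (fun x y => (lev Ω x y : ℝ) / N) x y = rowDist Ω x y / (N * Fintype.card V) := by
  unfold rho rowDist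
  rw [← div_div]
  congr 1
  rw [sum_div]
  refine sum_congr rfl fun z _ => ?_
  rw [← sub_div, abs_div, abs_of_pos hN]

theorem err_lev (Ω : Set (V → V)) {N : ℝ} (hN : 0 < N) (g : Equiv.Perm V) (p : V) :
    err (fun x y => (lev Ω x y : ℝ) / N) g p =
      (∑ z, |(lev Ω (g p) (g z) : ℝ) - lev Ω p z|) / (N * Fintype.card V) := by
  unfold err
  rw [← div_div]
  congr 1
  rw [sum_div]
  refine sum_congr rfl fun z _ => ?_
  rw [← sub_div, abs_div, abs_of_pos hN]

/-- a triple whose three levels are nearly maximal gives a world -/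
theorem world {L : ℕ} (hL : 1 ≤ L) (A : Aut V L) (hn : 2 ≤ Fintype.card V) {N δ : ℝ}
    (hN : 2 * N = Fintype.card V * ((Fintype.card V : ℝ) - 1)) (hδ : 0 ≤ δ) {x y z : V}
    (hxy : (1 - δ) * N ≤ lev A.Ω x y) (hyz : (1 - δ) * N ≤ lev A.Ω y z)
    (hxz : (1 - δ) * N ≤ lev A.Ω x z) :
    Nonempty (World V (8 * L) (16 * L * δ + 48 * L / Fintype.card V)) := by
  have : Nonempty V := ⟨x⟩
  set n : ℕ := Fintype.card V with hndef
  have hn' : (2 : ℝ) ≤ n := by exact_mod_cast hn
  have hnpos : (0 : ℝ) < n := by linarith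
  have hNpos : 0 < N := by nlinarith
  have hL' : (1 : ℝ) ≤ L := by exact_mod_cast hL
  have hL0 : (0 : ℝ) < L := by linarith
  have hNn : 0 < N * n := by positivity
  have hbd : bd V L = 2 * L * N := by
    unfold bd
    rw [← hndef, ← hN]
    ring
  have hnN : (n : ℝ) ≤ 2 * N := by nlinarith
  have hnN2 : (n : ℝ) * n ≤ 4 * N := by nlinarith
  set a : ℝ := (n : ℝ) * ((n : ℝ) - 1) - 2 * top A.Ω with ha
  have ha0 : 0 ≤ a := by
    have := two_top A.sync
    have h3 : 2 * (top A.Ω : ℝ) + n ≤ n * n := by exact_mod_cast this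
    rw [ha]; nlinarith
  have haδ : a ≤ 2 * δ * N := by
    have h1 : (lev A.Ω x y : ℝ) ≤ top A.Ω := by exact_mod_cast lev_le_top A.Ω x y
    rw [ha]
    linarith
  have hLN : 0 < L * N := by positivity
  have hLδ : 0 ≤ 16 * L * δ := by positivity
  have hε : (16 * L * δ + 48 * L / n) * (N * n) = 16 * (L * δ * N * n) + 48 * (L * N) := by
    field_simp
  have hLδNn : 0 ≤ L * δ * N * n := by positivity
  have key : ∀ E : ℝ, E ≤ 48 * (L * N) → E / (N * n) ≤ 16 * L * δ + 48 * L / n := by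
    intro E hE
    rw [div_le_iff₀ hNn, hε]
    linarith
  have hδε : δ ≤ 16 * L * δ + 48 * L / n := by
    have h1 : δ ≤ 16 * L * δ := by nlinarith
    have h2 : 0 ≤ 48 * (L : ℝ) / n := by positivity
    linarith
  have hlam : ∀ p q : V, (1 - δ) * N ≤ lev A.Ω p q →
      1 - (16 * L * δ + 48 * L / n) ≤ (lev A.Ω p q : ℝ) / N := by
    intro p q h
    rw [le_div_iff₀ hNpos]
    nlinarith
  refine ⟨{
    lam := fun x y => (lev A.Ω x y : ℝ) / N
    nonneg := fun x y => by positivity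
    le_one := fun x y => ?_
    self := fun x => by rw [lev_self]; simp
    symm := fun x y => by rw [lev_symm]
    w1 := fun x s h0 h1 => ?_
    w2 := fun x y => ?_
    w3 := fun S hS hS' => ?_
    w4 := fun x y => ?_
    w5 := fun x y x' y' => ?_
    w6 := ⟨x, y, z, hlam _ _ hxy, hlam _ _ hyz, hlam _ _ hxz⟩ }⟩
  · rw [div_le_one hNpos]
    have h1 : (lev A.Ω x y : ℝ) ≤ top A.Ω := by exact_mod_cast lev_le_top A.Ω x y
    linarith
  · refine (w1 hL A hn hN x s h0 h1).trans ?_
    rw [← hndef, ← ha]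
    have h2 : a / n ≤ δ * n := by
      rw [div_le_iff₀ hnpos]
      have : δ * (2 * N) ≤ δ * (n * n) := by
        rw [hN]; gcongr; linarith
      linarith
    have h3 : (16 * L * δ + 48 * L / n) * n = 16 * L * δ * n + 48 * L := by
      field_simp
    rw [h3]
    have h4 : δ * n ≤ 16 * L * δ * n := by
      have : δ * n * 1 ≤ δ * n * (16 * L) := by
        gcongr; linarith
      linarith
    linarith
  · rw [rho_lev A.Ω hNpos, div_le_iff₀ hNn]
    refine (rowDist_lev hL A x y).trans ?_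
    have h1 : (8 * L * ((lev A.Ω x y : ℝ) / N) + (16 * L * δ + 48 * L / n)) * (N * n) =
        8 * (n * (L * lev A.Ω x y)) + (16 * (L * δ * N * n) + 48 * (L * N)) := by
      rw [add_mul, hε]
      congr 1
      field_simp
    rw [h1, hbd, ← hndef]
    have h2 : 0 ≤ (n : ℝ) * (L * lev A.Ω x y) := by positivity
    linarith
  · obtain ⟨p, hp, q, hq, h⟩ := w3 hL A S hS hS'
    refine ⟨p, hp, q, hq, ?_⟩
    rw [rho_lev A.Ω hNpos]
    refine (div_le_div_of_nonneg_right h hNn.le).trans (key _ ?_)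
    rw [hbd, ← hndef]
    have h1 : (n : ℝ) * L ≤ 2 * (L * N) := by nlinarith
    have h2 : 4 * N ≤ 4 * (L * N) := by nlinarith
    linarith
  · obtain ⟨g, g1, g2, g3⟩ := w4 hL A x y
    refine ⟨g, ?_, fun p q => ?_, fun p => ?_⟩
    · rw [rho_lev A.Ω hNpos]
      exact (div_le_div_of_nonneg_right g1 hNn.le).trans (key _ (by rw [hbd]; linarith))
    · rw [rho_lev A.Ω hNpos, rho_lev A.Ω hNpos, ← sub_div, abs_div, abs_of_pos hNn]
      exact (div_le_div_of_nonneg_right (g2 p q) hNn.le).trans (key _ (by rw [hbd]; linarith))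
    · rw [err_lev A.Ω hNpos]
      exact (div_le_div_of_nonneg_right (g3 p) hNn.le).trans (key _ (by rw [hbd]; linarith))
  · obtain ⟨g, E, hE, g1, g2, g3⟩ := w5 hL A x y x' y'
    have hd : |(lev A.Ω x y : ℝ) / N - lev A.Ω x' y' / N| =
        |(lev A.Ω x y : ℝ) - lev A.Ω x' y'| / N := by
      rw [← sub_div, abs_div, abs_of_pos hNpos]
    have h4E : 4 * E ≤ (8 * L * (|(lev A.Ω x y : ℝ) - lev A.Ω x' y'| / N) +
        (16 * L * δ + 48 * L / n)) * (N * n) := by
      have h1 : (8 * L * (|(lev A.Ω x y : ℝ) - lev A.Ω x' y'| / N) +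
          (16 * L * δ + 48 * L / n)) * (N * n) =
          8 * (n * (L * |(lev A.Ω x y : ℝ) - lev A.Ω x' y'|)) +
            (16 * (L * δ * N * n) + 48 * (L * N)) := by
        rw [add_mul, hε]
        congr 1
        field_simp
      rw [h1]
      rw [hbd, ← hndef, ← ha] at hE
      have h2 : (n : ℝ) * (L * a) ≤ 2 * (L * δ * N * n) := by
        have h3 : (n : ℝ) * (L * a) ≤ n * (L * (2 * δ * N)) := by gcongr
        linarith
      have h3 : (n : ℝ) * (L * n) ≤ 4 * (L * N) := by nlinarith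
      have h4 : (n : ℝ) * (L * (|(lev A.Ω x y : ℝ) - lev A.Ω x' y'| + a + n)) =
          n * (L * |(lev A.Ω x y : ℝ) - lev A.Ω x' y'|) + n * (L * a) + n * (L * n) := by ring
      rw [h4] at hE
      linarith
    have hE0 : 0 ≤ E := (sum_nonneg fun z _ => abs_nonneg _).trans (g1 x)
    have fin : ∀ X : ℝ, X ≤ 4 * E → X / (N * n) ≤
        8 * L * (|(lev A.Ω x y : ℝ) - lev A.Ω x' y'| / N) + (16 * L * δ + 48 * L / n) := by
      intro X hX
      rw [div_le_iff₀ hNn]
      exact hX.trans h4E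
    simp only [hd]
    refine ⟨g, fun p q => ?_, fun p => ?_, ?_⟩
    · rw [rho_lev A.Ω hNpos, rho_lev A.Ω hNpos, ← sub_div, abs_div, abs_of_pos hNn]
      exact fin _ ((g2 p q).trans (by linarith))
    · rw [err_lev A.Ω hNpos]
      exact fin _ ((g1 p).trans (by linarith))
    · simp only [rho_lev A.Ω hNpos]
      rcases g3 with ⟨h1, h2⟩ | ⟨h1, h2⟩
      · exact Or.inl ⟨fin _ h1, fin _ h2⟩
      · exact Or.inr ⟨fin _ h1, fin _ h2⟩

end Pool.Agent.WD
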