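import Pool.Agent.WD.Triple

/-!
# Reduction to the strongly connected case
-/

set_option autoImplicit false
set_option linter.unusedSectionVars false

namespace Pool.Agent.WD

open Finset

variable {V : Type}

/-- the restrictions of the letters to a set of states -/
def resSet (Ω : Set (V → V)) (S : Set V) : Set (S → S) :=
  {f | ∃ g ∈ Ω, ∀ x : S, (f x).1 = g x}

/-- words over `Ω` restrict to an invariant set -/
theorem res_word {Ω : Set (V → V)} {S : Set V} (hS : ∀ f ∈ Ω, ∀ x ∈ S, f x ∈ S)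
    {w : List (V → V)} (hw : Over Ω w) :
    ∃ w' : List (S → S), Over (resSet Ω S) w' ∧ w'.length = w.length ∧
      ∀ x : S, (act w' x).1 = act w x := by
  induction w with
  | nil => exact ⟨[], over_nil _, rfl, fun x => rfl⟩
  | cons f w ih =>
    rw [over_cons] at hw
    obtain ⟨w', h1, h2, h3⟩ := ih hw.2
    refine ⟨(fun x : S => (⟨f x, hS f hw.1 x x.2⟩ : S)) :: w', over_cons.2 ⟨⟨f, hw.1, fun x => rfl⟩, h1⟩,
      by simp [h2], fun x => ?_⟩
    rw [act_cons, act_cons, h3]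

/-- words over the restricted letters come from words over `Ω` -/
theorem lift_word {Ω : Set (V → V)} {S : Set V} {w' : List (S → S)}
    (hw : Over (resSet Ω S) w') :
    ∃ w : List (V → V), Over Ω w ∧ w.length = w'.length ∧ ∀ x : S, (act w' x).1 = act w x := by
  induction w' with
  | nil => exact ⟨[], over_nil _, rfl, fun x => rfl⟩
  | cons f w' ih =>
    rw [over_cons] at hw
    obtain ⟨g, g1, g2⟩ := hw.1
    obtain ⟨w, h1, h2, h3⟩ := ih hw.2
    refine ⟨g :: w, over_cons.2 ⟨g1, h1⟩, by simp [h2], fun x => ?_⟩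
    rw [act_cons, act_cons, h3, g2]

/-- the restriction of an automaton to its sink component -/
theorem exists_aut [Fintype V] {L : ℕ} {Ω : Set (V → V)} (hn : Near Ω L) (hs : Sync Ω) :
    ∃ (S : Set V) (A : Aut S L) (q : V), A.Ω = resSet Ω S ∧ (∀ f ∈ Ω, ∀ x ∈ S, f x ∈ S) ∧ q ∈ S ∧
      ∀ x, ∃ u, Over Ω u ∧ act u x = q := by
  classical
  obtain ⟨w, w1, q, w2⟩ := hs
  let S : Set V := {x | ∃ u, Over Ω u ∧ act u q = x}
  have hq : q ∈ S := ⟨[], over_nil _, rfl⟩
  have hS : ∀ f ∈ Ω, ∀ x ∈ S, f x ∈ S := by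
    rintro f hf _ ⟨u, u1, rfl⟩
    exact ⟨u ++ [f], over_append.2 ⟨u1, over_cons.2 ⟨hf, over_nil _⟩⟩, by rw [act_append]; rfl⟩
  refine ⟨S, ⟨resSet Ω S, ?_, ?_, ?_⟩, q, rfl, hS, hq, fun x => ⟨w, w1, w2 x⟩⟩
  · rintro f' ⟨f, hf, hff⟩
    obtain ⟨g, g1, g2, g3, c, hc⟩ := hn f hf
    obtain ⟨g', h1, h2, h3⟩ := res_word hS g1
    have hinj : Function.Injective (act g') := by
      intro x y hxy
      apply Subtype.ext
      apply g3.1
      rw [← h3, ← h3, hxy]
    refine ⟨g', h1, by omega, Finite.injective_iff_bijective.1 hinj, ?_⟩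
    by_cases hcS : c ∈ S
    · refine ⟨⟨c, hcS⟩, fun x => ?_⟩
      rcases hc x with h | h
      · exact Or.inl (Subtype.ext (by rw [hff, h, h3]))
      · exact Or.inr (Subtype.ext (by rw [hff, h]))
    · refine ⟨⟨q, hq⟩, fun x => ?_⟩
      rcases hc x with h | h
      · exact Or.inl (Subtype.ext (by rw [hff, h, h3]))
      · exact absurd (h ▸ hS f hf x x.2) hcS
  · obtain ⟨w', h1, h2, h3⟩ := res_word hS w1
    exact ⟨w', h1, ⟨q, hq⟩, fun x => Subtype.ext (by rw [h3, w2])⟩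
  · rintro x ⟨y, u, u1, rfl⟩
    obtain ⟨v, h1, h2, h3⟩ := res_word hS (over_append.2 ⟨w1, u1⟩)
    exact ⟨v, h1, Subtype.ext (by rw [h3, act_append, w2])⟩

theorem act_mem {Ω : Set (V → V)} {S : Set V} (hS : ∀ f ∈ Ω, ∀ x ∈ S, f x ∈ S)
    {w : List (V → V)} (hw : Over Ω w) {x : V} (hx : x ∈ S) : act w x ∈ S := by
  induction w generalizing x with
  | nil => exact hx
  | cons f w ih =>
    rw [over_cons] at hw
    exact ih hw.2 (hS f hw.1 x hx)

theorem near_succ {Ω : Set (V → V)} {L : ℕ} (h : Near Ω L) : Near Ω (L + 1) := by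
  intro f hf
  obtain ⟨g, g1, g2, g3⟩ := h f hf
  exact ⟨g, g1, by omega, g3⟩

/-- short merging words for triples, in the wide class -/
theorem triple (nw : NoWorld) (L : ℕ) :
    ∃ c : ℝ, c < 1 ∧ ∃ C : ℝ, ∀ (V : Type) [Fintype V] (Ω : Set (V → V)), Near Ω L → Sync Ω →
      ∀ x y z : V, ∃ w, Over Ω w ∧
        (w.length : ℝ) ≤ c * (Fintype.card V : ℝ) ^ 2 + C * Fintype.card V ∧
        act w x = act w y ∧ act w x = act w z := by
  obtain ⟨c, c0, c1, C, C0, h⟩ := triple_conn nw (L := L + 1) (by omega)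
  refine ⟨c, c1, C + 3, ?_⟩
  intro V _ Ω hn hs x y z
  classical
  obtain ⟨S, A, q, hA, hS, hq, hreach⟩ := exists_aut (near_succ hn) hs
  obtain ⟨u1, a1, b1, e1⟩ := reach (hreach x)
  obtain ⟨u2, a2, b2, e2⟩ := reach (hreach (act u1 y))
  obtain ⟨u3, a3, b3, e3⟩ := reach (hreach (act u2 (act u1 z)))
  have hx : act u3 (act u2 (act u1 x)) ∈ S := by
    rw [e1]; exact act_mem hS a3 (act_mem hS a2 hq)
  have hy : act u3 (act u2 (act u1 y)) ∈ S := by
    rw [e2]; exact act_mem hS a3 hq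
  have hz : act u3 (act u2 (act u1 z)) ∈ S := by
    rw [e3]; exact hq
  obtain ⟨w', w1, w2, w3, w4⟩ := h S A ⟨_, hx⟩ ⟨_, hy⟩ ⟨_, hz⟩
  rw [hA] at w1
  obtain ⟨w, v1, v2, v3⟩ := lift_word w1
  have hcard : (Fintype.card S : ℝ) ≤ Fintype.card V := by
    exact_mod_cast Fintype.card_subtype_le _
  refine ⟨u1 ++ u2 ++ u3 ++ w, ?_, ?_, ?_, ?_⟩
  · simp only [over_append]
    exact ⟨⟨⟨a1, a2⟩, a3⟩, v1⟩
  · simp only [List.length_append]
    push_cast
    rw [v2]
    have i1 : (u1.length : ℝ) + 1 ≤ Fintype.card V := by exact_mod_cast b1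
    have i2 : (u2.length : ℝ) + 1 ≤ Fintype.card V := by exact_mod_cast b2
    have i3 : (u3.length : ℝ) + 1 ≤ Fintype.card V := by exact_mod_cast b3
    have i4 : c * (Fintype.card S : ℝ) ^ 2 ≤ c * (Fintype.card V : ℝ) ^ 2 := by gcongr
    have i5 : C * (Fintype.card S : ℝ) ≤ C * Fintype.card V := by gcongr
    linarith
  · simp only [act_append]
    have := congrArg Subtype.val w3
    rw [v3, v3] at this
    exact this
  · simp only [act_append]
    have := congrArg Subtype.val w4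
    rw [v3, v3] at this
    exact this

end Pool.Agent.WD
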