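import Pool.Agent.WD.Comp

/-!
# Sums of levels
-/

set_option autoImplicit false

namespace Pool.Agent.WD

open Finset

variable {V : Type} [Fintype V]

/-- the sum of the row of `x` -/
noncomputable def rowSum (Ω : Set (V → V)) (x : V) : ℝ := ∑ z, (lev Ω x z : ℝ)

/-- the distance of the rows of `x` and `y` -/
noncomputable def rowDist (Ω : Set (V → V)) (x y : V) : ℝ :=
  ∑ z, |(lev Ω x z : ℝ) - lev Ω y z|

/-- `F` on the first state and the permutation `g` on the second state lower the level by at most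
`l` -/
def Good (Ω : Set (V → V)) (F : V → V) (g : Equiv.Perm V) (l : ℝ) : Prop :=
  ∀ x z, (lev Ω x z : ℝ) ≤ l + lev Ω (F x) (g z)

/-- the mean error bound -/
noncomputable def bd (V : Type) [Fintype V] (L : ℕ) : ℝ :=
  L * (Fintype.card V * ((Fintype.card V : ℝ) - 1))

omit [Fintype V] in
theorem exists_good {L : ℕ} (hL : 1 ≤ L) {Ω : Set (V → V)} (hn : Near Ω L) (hs : Sync Ω)
    {u : List (V → V)} (hu : Over Ω u) :
    ∃ g : Equiv.Perm V, Good Ω (act u) g (L * u.length) ∧ Good Ω g g (L * u.length) := by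
  obtain ⟨v, h1, h2, h3, h4⟩ := comp_word hL hn hs hu
  refine ⟨Equiv.ofBijective (act v) h3, fun x z => ?_, fun x z => ?_⟩
  · have := h4 x z
    rw [Equiv.ofBijective_apply]
    exact_mod_cast this
  · rw [Equiv.ofBijective_apply, Equiv.ofBijective_apply]
    have := lev_word hs h1 x z
    have h5 : lev Ω x z ≤ L * u.length + lev Ω (act v x) (act v z) := by omega
    exact_mod_cast h5

theorem rowSum_good {Ω : Set (V → V)} {F : V → V} {g : Equiv.Perm V} {l : ℝ}
    (h : Good Ω F g l) (x : V) : rowSum Ω x ≤ Fintype.card V * l + rowSum Ω (F x) := by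
  unfold rowSum
  have h1 : ∑ z, (lev Ω x z : ℝ) ≤ ∑ z, (l + lev Ω (F x) (g z)) := sum_le_sum fun z _ => h x z
  rw [sum_add_distrib, sum_const, card_univ, nsmul_eq_mul] at h1
  rw [Equiv.sum_comp g fun z => (lev Ω (F x) z : ℝ)] at h1
  exact h1

variable {L : ℕ} (hL : 1 ≤ L) (A : Aut V L)

include hL

theorem rowSum_le (x y : V) : rowSum A.Ω x ≤ bd V L + rowSum A.Ω y := by
  obtain ⟨u, h1, h2, h3⟩ := reach (A.conn x y)
  obtain ⟨g, h4, _⟩ := exists_good hL A.near A.sync h1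
  have h5 := rowSum_good h4 x
  rw [h3] at h5
  have h6 : (u.length : ℝ) ≤ (Fintype.card V : ℝ) - 1 := by
    have : (u.length : ℝ) + 1 ≤ Fintype.card V := by exact_mod_cast h2
    linarith
  have h7 : (Fintype.card V : ℝ) * (L * u.length) ≤ bd V L := by
    unfold bd
    have : (Fintype.card V : ℝ) * (L * u.length) = L * (Fintype.card V * u.length) := by ring
    rw [this]
    gcongr
  linarith

theorem sum_good {F : V → V} {g : Equiv.Perm V} {l : ℝ} (hl : 0 ≤ l) (h : Good A.Ω F g l) (x : V) :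
    ∑ z, |(lev A.Ω (F x) (g z) : ℝ) - lev A.Ω x z| ≤ bd V L + 2 * (Fintype.card V * l) := by
  have h1 : ∀ z, |(lev A.Ω (F x) (g z) : ℝ) - lev A.Ω x z| ≤
      ((lev A.Ω (F x) (g z) : ℝ) - lev A.Ω x z) + 2 * l := by
    intro z
    have h2 := h x z
    rw [abs_le]
    constructor <;> linarith
  refine (sum_le_sum fun z _ => h1 z).trans ?_
  rw [sum_add_distrib, sum_sub_distrib, sum_const, card_univ, nsmul_eq_mul,
    Equiv.sum_comp g fun z => (lev A.Ω (F x) z : ℝ)]
  have h3 := rowSum_le hL A (F x) x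
  unfold rowSum at h3
  linarith

theorem sum_inv {g : Equiv.Perm V} {l : ℝ} (hl : 0 ≤ l) (h : Good A.Ω g g l) (x : V) :
    ∑ z, |(lev A.Ω (g⁻¹ x) (g⁻¹ z) : ℝ) - lev A.Ω x z| ≤ bd V L + 2 * (Fintype.card V * l) := by
  have h1 := sum_good hL A hl h (g⁻¹ x)
  refine le_trans (le_of_eq ?_) h1
  rw [← Equiv.sum_comp g]
  refine sum_congr rfl fun z _ => ?_
  have e1 : g⁻¹ (g z) = z := g.symm_apply_apply z
  have e2 : g (g⁻¹ x) = x := g.apply_symm_apply x
  rw [e1, e2, abs_sub_comm]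

omit hL in
theorem rowDist_perm {Ω : Set (V → V)} (g : Equiv.Perm V) {E : ℝ}
    (h : ∀ p, ∑ z, |(lev Ω (g p) (g z) : ℝ) - lev Ω p z| ≤ E) (p q : V) :
    |rowDist Ω (g p) (g q) - rowDist Ω p q| ≤ 2 * E := by
  unfold rowDist
  rw [← Equiv.sum_comp g fun z => |(lev Ω (g p) z : ℝ) - lev Ω (g q) z|, ← sum_sub_distrib]
  refine (abs_sum_le_sum_abs _ _).trans ?_
  have h1 : ∀ z, |(|(lev Ω (g p) (g z) : ℝ) - lev Ω (g q) (g z)| - |(lev Ω p z : ℝ) - lev Ω q z|)| ≤
      |(lev Ω (g p) (g z) : ℝ) - lev Ω p z| + |(lev Ω (g q) (g z) : ℝ) - lev Ω q z| := by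
    intro z
    refine (abs_abs_sub_abs_le _ _).trans ?_
    have : (lev Ω (g p) (g z) : ℝ) - lev Ω (g q) (g z) - ((lev Ω p z : ℝ) - lev Ω q z) =
        ((lev Ω (g p) (g z) : ℝ) - lev Ω p z) - ((lev Ω (g q) (g z) : ℝ) - lev Ω q z) := by ring
    rw [this]
    exact abs_sub _ _
  refine (sum_le_sum fun z _ => h1 z).trans ?_
  rw [sum_add_distrib]
  linarith [h p, h q]

theorem rowDist_good {F : V → V} {g : Equiv.Perm V} {l : ℝ} (hl : 0 ≤ l) (h : Good A.Ω F g l)
    (h' : Good A.Ω g g l) (x : V) :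
    rowDist A.Ω (F x) (g x) ≤ 2 * (bd V L + 2 * (Fintype.card V * l)) := by
  have h1 := sum_good hL A hl h x
  have h2 := sum_good hL A hl h' x
  unfold rowDist
  rw [← Equiv.sum_comp g]
  have h3 : ∀ z, |(lev A.Ω (F x) (g z) : ℝ) - lev A.Ω (g x) (g z)| ≤
      |(lev A.Ω (F x) (g z) : ℝ) - lev A.Ω x z| + |(lev A.Ω (g x) (g z) : ℝ) - lev A.Ω x z| := by
    intro z
    have : (lev A.Ω (F x) (g z) : ℝ) - lev A.Ω (g x) (g z) =
        ((lev A.Ω (F x) (g z) : ℝ) - lev A.Ω x z) - ((lev A.Ω (g x) (g z) : ℝ) - lev A.Ω x z) := by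
      ring
    rw [this]
    exact abs_sub _ _
  refine (sum_le_sum fun z _ => h3 z).trans ?_
  rw [sum_add_distrib]
  linarith

omit hL in
theorem rowDist_tri (Ω : Set (V → V)) (x y z : V) :
    rowDist Ω x z ≤ rowDist Ω x y + rowDist Ω y z := by
  unfold rowDist
  rw [← sum_add_distrib]
  exact sum_le_sum fun t _ => abs_sub_le _ _ _

omit hL in
theorem rowDist_symm (Ω : Set (V → V)) (x y : V) : rowDist Ω x y = rowDist Ω y x := by
  unfold rowDist
  exact sum_congr rfl fun t _ => abs_sub_comm _ _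

omit hL in
theorem rowDist_self (Ω : Set (V → V)) (x : V) : rowDist Ω x x = 0 := by
  unfold rowDist
  exact sum_eq_zero fun t _ => by rw [sub_self, abs_zero]

/-- states with a small common level have nearby rows -/
theorem rowDist_lev (x y : V) :
    rowDist A.Ω x y ≤ 2 * bd V L + 2 * (Fintype.card V * (L * lev A.Ω x y)) := by
  obtain ⟨u, h1, h2, h3⟩ := exists_merge A.sync x y
  obtain ⟨g, h4, _⟩ := exists_good hL A.near A.sync h1
  rw [h2] at h4
  have h5 : ∀ z, |(lev A.Ω x z : ℝ) - lev A.Ω y z| ≤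
      2 * (L * lev A.Ω x y + lev A.Ω (act u x) (g z)) - lev A.Ω x z - lev A.Ω y z := by
    intro z
    have h6 := h4 x z
    have h7 := h4 y z
    rw [← h3] at h7
    rw [abs_le]
    constructor <;> linarith
  unfold rowDist
  refine (sum_le_sum fun z _ => h5 z).trans ?_
  rw [sum_sub_distrib, sum_sub_distrib, ← mul_sum, sum_add_distrib, sum_const, card_univ,
    nsmul_eq_mul, Equiv.sum_comp g fun z => (lev A.Ω (act u x) z : ℝ)]
  have h8 := rowSum_le hL A (act u x) x
  have h9 := rowSum_le hL A (act u x) y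
  unfold rowSum at h8 h9
  linarith

end Pool.Agent.WD
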