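import Pool.Agent.WD.OfAut

/-!
# Triples: from the absence of worlds to short merging words
-/

set_option autoImplicit false
set_option linter.unusedSectionVars false

namespace Pool.Agent.WD

open Finset

/-- no world of small precision exists -/
def NoWorld : Prop :=
  ∀ K : ℝ, ∃ ε₀ : ℝ, 0 < ε₀ ∧ ∀ (V : Type) [Fintype V] [DecidableEq V] (ε : ℝ), ε ≤ ε₀ →
    World V K ε → False

variable {V : Type} [Fintype V] [DecidableEq V]

/-- greedy merging of a triple -/
theorem greedy {L : ℕ} (A : Aut V L) (x y z : V) :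
    ∃ w, Over A.Ω w ∧ w.length ≤ lev A.Ω x y + top A.Ω ∧ act w x = act w y ∧
      act w x = act w z := by
  obtain ⟨u, u1, u2, u3⟩ := exists_merge A.sync x y
  obtain ⟨v, v1, v2, v3⟩ := exists_merge A.sync (act u x) (act u z)
  refine ⟨u ++ v, over_append.2 ⟨u1, v1⟩, ?_, ?_, ?_⟩
  · rw [List.length_append, u2, v2]
    exact Nat.add_le_add_left (lev_le_top _ _ _) _
  · rw [act_append, act_append, u3]
  · rw [act_append, act_append, v3]

theorem triple_conn (nw : NoWorld) {L : ℕ} (hL : 1 ≤ L) :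
    ∃ c : ℝ, 0 ≤ c ∧ c < 1 ∧ ∃ C : ℝ, 0 ≤ C ∧ ∀ (V : Type) [Fintype V] [DecidableEq V]
      (A : Aut V L) (x y z : V), ∃ w, Over A.Ω w ∧
        (w.length : ℝ) ≤ c * (Fintype.card V : ℝ) ^ 2 + C * Fintype.card V ∧
        act w x = act w y ∧ act w x = act w z := by
  obtain ⟨ε₀, h0, hw⟩ := nw (8 * L)
  have hL' : (1 : ℝ) ≤ L := by exact_mod_cast hL
  have hLp : (0 : ℝ) < L := by linarith
  set δ : ℝ := min 1 (ε₀ / (32 * L)) with hδdef
  have hδ0 : 0 < δ := lt_min one_pos (by positivity)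
  have hδ1 : δ ≤ 1 := min_le_left _ _
  have hδ2 : δ * (32 * L) ≤ ε₀ := by
    rw [← le_div_iff₀ (by positivity)]
    exact min_le_right _ _
  set C : ℝ := 96 * L / ε₀ + 2 with hC
  have hC0 : 0 ≤ C := by positivity
  refine ⟨1 - δ / 2, by linarith, by linarith, C, hC0, ?_⟩
  intro V _ _ A x y z
  have : Nonempty V := ⟨x⟩
  set n : ℕ := Fintype.card V with hn
  have hnpos : 0 < n := Fintype.card_pos
  have hn1 : (1 : ℝ) ≤ n := by exact_mod_cast hnpos
  have htop : 2 * (top A.Ω : ℝ) + n ≤ n * n := by exact_mod_cast two_top A.sync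
  -- greedy bound for any order of the triple
  have hord : ∀ p q r : V, (lev A.Ω p q : ℝ) + top A.Ω ≤ (1 - δ / 2) * (n : ℝ) ^ 2 + C * n →
      ∃ w, Over A.Ω w ∧ (w.length : ℝ) ≤ (1 - δ / 2) * (n : ℝ) ^ 2 + C * n ∧
        act w p = act w q ∧ act w p = act w r := by
    intro p q r h
    obtain ⟨w, w1, w2, w3, w4⟩ := greedy A p q r
    refine ⟨w, w1, le_trans ?_ h, w3, w4⟩
    exact_mod_cast w2
  by_cases hbig : (n : ℝ) ≤ C
  · apply hord x y z
    have h1 : (lev A.Ω x y : ℝ) ≤ top A.Ω := by exact_mod_cast lev_le_top A.Ω x y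
    have h2 : (n : ℝ) * n ≤ C * n := by gcongr
    have h3 : 0 ≤ (1 - δ / 2) * (n : ℝ) ^ 2 := mul_nonneg (by linarith) (by positivity)
    linarith
  · push Not at hbig
    have hn2 : (2 : ℝ) ≤ n := by
      have : 0 ≤ 96 * L / ε₀ := by positivity
      linarith
    have hn2' : 2 ≤ n := by exact_mod_cast hn2
    set N : ℝ := (n : ℝ) * ((n : ℝ) - 1) / 2 with hN
    have hN2 : 2 * N = n * ((n : ℝ) - 1) := by rw [hN]; ring
    have hNpos : 0 < N := by nlinarith
    have hsmall : ∀ p q r : V, (lev A.Ω p q : ℝ) < (1 - δ) * N →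
        ∃ w, Over A.Ω w ∧ (w.length : ℝ) ≤ (1 - δ / 2) * (n : ℝ) ^ 2 + C * n ∧
          act w p = act w q ∧ act w p = act w r := by
      intro p q r h
      apply hord p q r
      have h1 : (top A.Ω : ℝ) ≤ N := by nlinarith
      have h2 : (1 - δ / 2) * (2 * N) ≤ (1 - δ / 2) * (n : ℝ) ^ 2 := by
        apply mul_le_mul_of_nonneg_left _ (by linarith)
        nlinarith
      have h3 : 0 ≤ C * n := by positivity
      linarith
    by_cases h1 : (lev A.Ω x y : ℝ) < (1 - δ) * N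
    · exact hsmall x y z h1
    by_cases h2 : (lev A.Ω y z : ℝ) < (1 - δ) * N
    · obtain ⟨w, w1, w2, w3, w4⟩ := hsmall y z x h2
      exact ⟨w, w1, w2, w4.symm, by rw [← w4, w3]⟩
    by_cases h3 : (lev A.Ω x z : ℝ) < (1 - δ) * N
    · obtain ⟨w, w1, w2, w3, w4⟩ := hsmall x z y h3
      exact ⟨w, w1, w2, w4, w3⟩
    exfalso
    push Not at h1 h2 h3
    obtain ⟨W⟩ := world hL A hn2' hN2 hδ0.le h1 h2 h3
    refine hw V _ ?_ W
    rw [← hn]
    have h4 : 48 * (L : ℝ) / n ≤ ε₀ / 2 := by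
      rw [div_le_iff₀ (by linarith)]
      have h5 : 96 * L / ε₀ < n := by linarith
      rw [div_lt_iff₀ h0] at h5
      linarith
    linarith

end Pool.Agent.WD
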