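import Pool.Agent.WD.Count

/-!
# The rows are equidistributed
-/

set_option autoImplicit false
set_option linter.unusedSectionVars false

namespace Pool.Agent.WD

open Finset

variable {V : Type} [Fintype V] [DecidableEq V]

/-- the number of states whose level with `x` is at most `t` -/
noncomputable def rowCnt (Ω : Set (V → V)) (x : V) (t : ℕ) : ℕ :=
  (univ.filter fun z => lev Ω x z ≤ t).card

theorem sum_rowCnt (Ω : Set (V → V)) (t : ℕ) : ∑ x, rowCnt Ω x t = cnt Ω t := by
  unfold rowCnt cnt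
  rw [card_filter, Fintype.sum_prod_type]
  exact sum_congr rfl fun x _ => card_filter _ _

theorem rowCnt_le {L : ℕ} (hL : 1 ≤ L) (A : Aut V L) (x y : V) (t : ℕ) :
    rowCnt A.Ω y t ≤ rowCnt A.Ω x (t + L * Fintype.card V) := by
  obtain ⟨u, h1, h2, h3⟩ := reach (A.conn x y)
  obtain ⟨v, _, _, h4, h5⟩ := comp_word hL A.near A.sync h1
  unfold rowCnt
  have h6 : (univ.filter fun z => lev A.Ω y z ≤ t) ⊆
      (univ.filter fun z => lev A.Ω x z ≤ t + L * Fintype.card V).image (act v) := by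
    intro z hz
    obtain ⟨z', rfl⟩ := h4.2 z
    refine mem_image_of_mem _ ?_
    rw [mem_filter] at hz ⊢
    refine ⟨mem_univ _, ?_⟩
    have h7 := h5 x z'
    rw [h3] at h7
    have h8 : L * u.length ≤ L * Fintype.card V := Nat.mul_le_mul_left L (by omega)
    omega
  exact (card_le_card h6).trans card_image_le

theorem rowCnt_upper {L : ℕ} (hL : 1 ≤ L) (A : Aut V L) (x : V) (t : ℕ) :
    Fintype.card V * rowCnt A.Ω x t ≤ cnt A.Ω (t + L * Fintype.card V) := by
  rw [← sum_rowCnt, ← card_univ, ← smul_eq_mul, ← sum_const, card_univ]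
  exact sum_le_sum fun y _ => rowCnt_le hL A y x t

theorem rowCnt_lower {L : ℕ} (hL : 1 ≤ L) (A : Aut V L) (x : V) (t : ℕ) :
    cnt A.Ω t ≤ Fintype.card V * rowCnt A.Ω x (t + L * Fintype.card V) := by
  rw [← sum_rowCnt, ← card_univ, ← smul_eq_mul, ← sum_const, card_univ]
  exact sum_le_sum fun y _ => rowCnt_le hL A x y t

theorem cnt_upper' [Nonempty V] {Ω : Set (V → V)} (hs : Sync Ω) (t : ℕ) :
    (cnt Ω t : ℝ) ≤ Fintype.card V + 2 * t +
      ((Fintype.card V : ℝ) * Fintype.card V - Fintype.card V - 2 * top Ω) := by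
  rcases Nat.lt_or_ge (top Ω) t with h | h
  · rw [cnt_of_top h.le]
    push_cast
    have : (top Ω : ℝ) ≤ t := by exact_mod_cast h.le
    linarith
  · have h1 := cnt_upper hs (t := t) (k := top Ω - t) (by omega)
    have h2 : cnt Ω t + 2 * top Ω ≤ Fintype.card V * Fintype.card V + 2 * t := by omega
    have h3 : (cnt Ω t : ℝ) + 2 * top Ω ≤ Fintype.card V * Fintype.card V + 2 * t := by
      exact_mod_cast h2
    linarith

theorem cnt_lower' [Nonempty V] {Ω : Set (V → V)} (hs : Sync Ω) (t : ℕ)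
    (ht : 2 * t + Fintype.card V ≤ Fintype.card V * Fintype.card V) :
    Fintype.card V + 2 * t ≤ cnt Ω t := by
  rcases Nat.lt_or_ge (top Ω) t with h | h
  · rw [cnt_of_top h.le]
    omega
  · exact cnt_lower hs h

/-- equidistribution of the rows -/
theorem w1 {L : ℕ} (hL : 1 ≤ L) (A : Aut V L) (hn : 2 ≤ Fintype.card V) {N : ℝ}
    (hN : 2 * N = Fintype.card V * ((Fintype.card V : ℝ) - 1)) (x : V) (s : ℝ) (h0 : 0 ≤ s)
    (h1 : s ≤ 1) :
    |((univ.filter fun z => (lev A.Ω x z : ℝ) / N ≤ s).card : ℝ) - s * Fintype.card V| ≤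
      2 * L + 1 + ((Fintype.card V : ℝ) * ((Fintype.card V : ℝ) - 1) - 2 * top A.Ω) /
        Fintype.card V := by
  have : Nonempty V := ⟨x⟩
  set n : ℕ := Fintype.card V with hndef
  have hn' : (2 : ℝ) ≤ n := by exact_mod_cast hn
  have hNpos : 0 < N := by nlinarith
  set t : ℕ := ⌊s * N⌋₊ with ht
  have hset : (univ.filter fun z => (lev A.Ω x z : ℝ) / N ≤ s) =
      univ.filter fun z => lev A.Ω x z ≤ t := by
    apply filter_congr
    intro z _
    rw [div_le_iff₀ hNpos, ht, Nat.le_floor_iff (by positivity)]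
  rw [hset]
  change |((rowCnt A.Ω x t : ℕ) : ℝ) - s * n| ≤ _
  have ht1 : (t : ℝ) ≤ s * N := Nat.floor_le (by positivity)
  have ht2 : s * N < t + 1 := Nat.lt_floor_add_one _
  have hL' : (1 : ℝ) ≤ L := by exact_mod_cast hL
  set a : ℝ := (n : ℝ) * ((n : ℝ) - 1) - 2 * top A.Ω with ha
  have ha0 : 0 ≤ a := by
    have := two_top A.sync
    have h3 : 2 * (top A.Ω : ℝ) + n ≤ n * n := by exact_mod_cast this
    rw [ha]; nlinarith
  have hnpos : (0 : ℝ) < n := by linarith
  have hup : (rowCnt A.Ω x t : ℝ) ≤ s * n + 1 + 2 * L + a / n := by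
    have h2 := rowCnt_upper hL A x t
    have h3 := cnt_upper' A.sync (t + L * Fintype.card V)
    have h4 : (n : ℝ) * rowCnt A.Ω x t ≤ cnt A.Ω (t + L * Fintype.card V) := by exact_mod_cast h2
    have h5 : (n : ℝ) * rowCnt A.Ω x t ≤ n + 2 * (t + L * n) + a := by
      refine h4.trans (h3.trans (le_of_eq ?_))
      rw [ha]
      push_cast
      ring
    rw [← mul_le_mul_iff_right₀ hnpos]
    refine h5.trans ?_
    have h6 : (n : ℝ) * (s * n + 1 + 2 * L + a / n) = s * n * n + n + 2 * L * n + a := by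
      field_simp
    rw [h6]
    nlinarith [mul_nonneg h0 hnpos.le]
  have hlo : s * n - 1 - 2 * L ≤ (rowCnt A.Ω x t : ℝ) := by
    rcases Nat.lt_or_ge t (L * n) with h | h
    · have h2 : (t : ℝ) + 1 ≤ L * n := by exact_mod_cast h
      have h3 : s * ((n : ℝ) - 1) * n < 2 * L * n := by nlinarith
      have h4 : s * ((n : ℝ) - 1) < 2 * L := lt_of_mul_lt_mul_right h3 hnpos.le
      have h5 : (0 : ℝ) ≤ rowCnt A.Ω x t := Nat.cast_nonneg _
      linarith
    · have h2 := rowCnt_lower hL A x (t - L * n)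
      rw [← hndef, Nat.sub_add_cancel h] at h2
      have h7 : 2 * t + n ≤ n * n := by
        have h8 : (2 : ℝ) * t + n ≤ n * n := by nlinarith
        exact_mod_cast h8
      have h3 := cnt_lower' A.sync (t - L * n) (by rw [← hndef]; omega)
      rw [← hndef] at h3
      have h4 : n + 2 * t ≤ n * rowCnt A.Ω x t + 2 * (L * n) := by omega
      have h5 : (n : ℝ) + 2 * t ≤ n * rowCnt A.Ω x t + 2 * (L * n) := by exact_mod_cast h4
      rw [← mul_le_mul_iff_right₀ hnpos]
      nlinarith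
  rw [abs_le]
  have : 0 ≤ a / n := by positivity
  constructor <;> linarith

end Pool.Agent.WD
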